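import Pool.Agent.H37.CPX.Targets

/-!
# Cutting planes of any depth, row FIR: the statement about real monotone circuits
-/

set_option autoImplicit false

namespace Pool.Agent.H16.CPX

open Finset Pool.Agent.H37.CPX
open Pool.Agent.H1.LP (Clause)
open Pool.Agent.H37.CP (RCircuit RSound RAcc)

theorem pf_FIR (hS : S_SYS) (hD : S_RMX) (hF : S_FRX) (hP : S_PARM) : S_FIR := by
  classical
  refine ⟨1000, by norm_num, fun κ hκ => ?_⟩
  obtain ⟨k, hk⟩ : ∃ k, k = κ - 6 := ⟨_, rfl⟩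
  have hk1 : 150 ≤ k := by omega
  have hk2 : k + 6 = κ := by omega
  obtain ⟨E, B0, hE, hs⟩ := hS k
  obtain ⟨C, n0, hn0⟩ := hP k hk1 E B0 hE
  refine ⟨2 ^ (κ + 1), C, max n0 1, fun n hn => ?_⟩
  have hnn : n0 ≤ n := le_trans (le_max_left _ _) hn
  have hn1 : 1 ≤ n := le_trans (le_max_right _ _) hn
  obtain ⟨N, P, z, lam, hB, hNum, h3, hM, hz⟩ := hn0 n hnn
  obtain ⟨s, hun⟩ := hs N hB
  have hq1 : 1 ≤ P ^ 16 := Nat.one_le_pow _ _ (lt_of_lt_of_le (by norm_num) hNum.hP)
  have hw1 : 1 ≤ N / E := by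
    have h1 := hNum.hw
    have h2 := hNum.hz
    omega
  have hNq : N * P ^ 16 ≤ n := by omega
  have hNn : N ≤ n := le_trans (Nat.le_mul_of_pos_right N hq1) hNq
  obtain ⟨a, FY, ha1, ha2, hFY, hsep⟩ := hF N (2 * N) k (N / E) (P ^ 16) n s hq1 hw1 hNq hun
  obtain ⟨Y, hY⟩ : ∃ Y, Y = Fintype.card (PX N (P ^ 16)) := ⟨_, rfl⟩
  have hYe : Y = (P ^ 16) ^ N := by
    rw [hY, Fintype.card_fun, Fintype.card_fin, Fintype.card_fin]
  obtain ⟨e⟩ : Nonempty (Fin Y ≃ PX N (P ^ 16)) := by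
    rw [hY]
    exact ⟨(Fintype.equivFin _).symm⟩
  refine ⟨Y, fun _ => 2 * N * 2 ^ (k + 6), fun i => a (e i), ?_, ?_, ?_⟩
  · rw [hYe]
    exact Nat.pow_pos hq1
  · intro i
    refine ⟨?_, fun j => ?_, ha2 (e i)⟩
    · rw [hk2, pow_succ]
      calc 2 * N * 2 ^ κ = 2 ^ κ * 2 * N := by ring
        _ ≤ 2 ^ κ * 2 * n := Nat.mul_le_mul_left _ hNn
    · rw [← hk2]
      exact ha1 (e i) j
  · intro Ci hsound hhalf
    have hy : ∀ y, Pool.Agent.H37.CP.rval Ci.gate
        ((FY y : Finset (Clause n)) : Set (Clause n)) Ci.out ≤ 0 := by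
      intro y
      have hr : Set.range (fun i : Fin (FY y).card => (((FY y).equivFin.symm i : FY y) :
          Clause n)) = ((FY y : Finset (Clause n)) : Set (Clause n)) := by
        ext c
        constructor
        · rintro ⟨i, rfl⟩
          exact ((FY y).equivFin.symm i).2
        · intro hc
          exact ⟨(FY y).equivFin ⟨c, hc⟩, by simp⟩
      have hcard : (FY y).card ≤ n ^ C := by
        refine le_trans (hFY y).1 (le_trans ?_ hM)
        exact Nat.le_add_right _ _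
      have := hsound (FY y).card (fun i => (((FY y).equivFin.symm i : FY y) : Clause n)) hcard
        (fun i => by
          have h := (hFY y).2.1 _ ((FY y).equivFin.symm i).2
          rw [← hk2]
          exact h)
        (by
          obtain ⟨v, hv⟩ := (hFY y).2.2
          exact ⟨v, fun i => hv _ ((FY y).equivFin.symm i).2⟩)
      unfold RAcc at this
      rw [hr] at this
      exact not_lt.mp this
    obtain ⟨X0, hX0⟩ : ∃ X0 : Finset (PX N (P ^ 16)),
        X0 = univ.filter (fun x => RAcc Ci (a x)) := ⟨_, rfl⟩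
    have hcX : (univ.filter (fun i : Fin Y => RAcc Ci (a (e i)))).card ≤ X0.card := by
      refine Finset.card_le_card_of_injOn (fun i => e i) ?_ (fun i _ j _ h => e.injective h)
      intro i hi
      rw [Finset.mem_coe, Finset.mem_filter] at hi
      rw [Finset.mem_coe, hX0, Finset.mem_filter]
      exact ⟨Finset.mem_univ _, hi.2⟩
    have hXr : ((P : ℝ) ^ 16) ^ N ≤ 2 * X0.card := by
      have h1 : (P ^ 16) ^ N ≤ 2 * X0.card := by
        rw [← hYe]
        refine le_trans hhalf ?_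
        exact Nat.mul_le_mul_left 2 hcX
      have h2 : (((P ^ 16) ^ N : ℕ) : ℝ) ≤ ((2 * X0.card : ℕ) : ℝ) := Nat.cast_le.mpr h1
      rw [Nat.cast_pow, Nat.cast_pow, Nat.cast_mul, Nat.cast_ofNat] at h2
      exact h2
    have key := hD N (2 * N) k (N / E) P z lam n s (fun y => ((FY y : Finset (Clause n)) :
      Set (Clause n))) (fun x => Set.range (a x)) X0 Ci hNum
      (fun c => by
        obtain ⟨j, hj⟩ := hsep c
        refine ⟨j, fun x hx y hy' => hj x ?_ y ?_⟩
        · obtain ⟨i, hi⟩ := hx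
          exact ⟨i, hi⟩
        · exact fun h => hy' (Finset.mem_coe.mpr h))
      hy
      (fun x hx => by
        rw [hX0, Finset.mem_filter] at hx
        exact hx.2)
      hXr
    have hkr : (150 : ℝ) ≤ k := by exact_mod_cast hk1
    have hκr : (κ : ℝ) = k + 6 := by
      rw [← hk2]
      push_cast
      ring
    have hκ0 : (0 : ℝ) < κ := by linarith
    have hexp : 1 - ((1000 : ℕ) : ℝ) / κ ≤ 1 - 150 / (k : ℝ) := by
      have h1 : (150 : ℝ) / k ≤ ((1000 : ℕ) : ℝ) / κ := by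
        rw [div_le_div_iff₀ (by linarith) hκ0, hκr]
        push_cast
        nlinarith
      linarith
    have hn1' : (1 : ℝ) ≤ n := by exact_mod_cast hn1
    have h1 : (n : ℝ) ^ (1 - ((1000 : ℕ) : ℝ) / κ) ≤ (n : ℝ) ^ (1 - 150 / (k : ℝ)) :=
      Real.rpow_le_rpow_of_exponent_le hn1' hexp
    have h2 : (2 : ℝ) ^ ((n : ℝ) ^ (1 - ((1000 : ℕ) : ℝ) / κ)) ≤
        (2 : ℝ) ^ ((n : ℝ) ^ (1 - 150 / (k : ℝ))) :=
      Real.rpow_le_rpow_of_exponent_le (by norm_num) h1
    linarith

end Pool.Agent.H16.CPX
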