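import Mathlib
import Pool.Agent.H57.CP.Targets

/-!
# Chiral polyhedra in hyperbolic 3-space: module LC, the type of a realization
-/

namespace Pool.Agent.H16.CPX

open Pool.Agent.H57.CP

theorem lc : T_LC := by
  intro P _ _ rk β p q hP hF hT
  constructor
  · rintro f ⟨f', hf', rfl⟩
    have hf2 : rk f' = 2 := hf'
    have hset : {x | ∃ e ∈ im2 rk β f', x ∈ e} = β '' {v | rk v = 0 ∧ v < f'} := by
      ext x
      constructor
      · rintro ⟨e, ⟨e', ⟨he1, he2⟩, rfl⟩, v, ⟨hv0, hv⟩, rfl⟩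
        exact ⟨v, ⟨hv0, hv.trans he2⟩, rfl⟩
      · rintro ⟨v, ⟨hv0, hv⟩, rfl⟩
        have hd := hP.diamond v f' hv (by rw [hf2, hv0]; norm_num)
        have hne : (Set.Ioo v f').Nonempty := Set.nonempty_of_ncard_ne_zero (by rw [hd]; norm_num)
        obtain ⟨e, he1, he2⟩ := hne
        have h1 : rk v < rk e := hP.mono he1
        have h2 : rk e < rk f' := hP.mono he2
        exact ⟨im1 rk β e, ⟨e, ⟨by omega, he2⟩, rfl⟩, v, ⟨hv0, he1⟩, rfl⟩
    show {x | ∃ e ∈ im2 rk β f', x ∈ e}.encard = p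
    rw [hset, Set.InjOn.encard_image]
    · exact hT.1 f' hf2
    · intro v hv w hw h
      exact hF.inj0 v w hv.1 hw.1 h
  · rintro x ⟨v, hv, rfl⟩
    have hv0 : rk v = 0 := hv
    have hset : {e | e ∈ im1 rk β '' {e | rk e = 1} ∧ β v ∈ e} = im1 rk β '' {e | rk e = 1 ∧ v < e} := by
      ext e
      constructor
      · rintro ⟨⟨e', he', rfl⟩, w, ⟨hw0, hw⟩, hwv⟩
        have : w = v := hF.inj0 w v hw0 hv0 hwv
        subst this
        exact ⟨e', ⟨he', hw⟩, rfl⟩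
      · rintro ⟨e', ⟨he', hve⟩, rfl⟩
        exact ⟨⟨e', he', rfl⟩, v, ⟨hv0, hve⟩, rfl⟩
    show {e | e ∈ im1 rk β '' {e | rk e = 1} ∧ β v ∈ e}.encard = q
    rw [hset, Set.InjOn.encard_image]
    · exact hT.2 v hv0
    · intro e he e' he' h
      exact hF.inj1 e e' he.1 he'.1 h

end Pool.Agent.H16.CPX
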