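import Mathlib
import Pool.Agent.H57.CP.Targets

/-!
# Chiral polyhedra in hyperbolic 3-space: module NCG, the type in terms of the rotations
-/

namespace Pool.Agent.H16.CPX

open Pool.Agent.H57.CP

theorem mem_of_two {α : Type*} {s : Set α} (hs : s.ncard = 2) {a b c : α} (ha : a ∈ s) (hb : b ∈ s) (hc : c ∈ s)
    (hab : a ≠ b) : c = a ∨ c = b := by
  obtain ⟨x, y, hxy, rfl⟩ := Set.ncard_eq_two.mp hs
  simp only [Set.mem_insert_iff, Set.mem_singleton_iff] at ha hb hc
  grind

theorem gr_pow {S T : Equiv.Perm H3} (k : ℤ) : S ^ k ∈ Gr S T :=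
  Subgroup.zpow_mem (Gr S T) (Subgroup.subset_closure (Set.mem_insert _ _)) k

theorem gr_T {S T : Equiv.Perm H3} : T ∈ Gr S T := Subgroup.subset_closure (Or.inr rfl)

theorem kst_E {v v' : H3} {S T g : Equiv.Perm H3} (hg : g ∈ Gr S T) {e : Set H3} (he : e ∈ (Kst v v' S T).E) :
    g '' e ∈ (Kst v v' S T).E := by
  obtain ⟨h, hh, rfl⟩ := he
  refine ⟨g * h, Subgroup.mul_mem _ hg hh, ?_⟩
  rw [← Set.image_comp]
  rfl

theorem kst_F {v v' : H3} {S T g : Equiv.Perm H3} (hg : g ∈ Gr S T) {f : Set (Set H3)}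
    (hf : f ∈ (Kst v v' S T).F) : (Set.image g) '' f ∈ (Kst v v' S T).F := by
  obtain ⟨h, hh, rfl⟩ := hf
  refine ⟨g * h, Subgroup.mul_mem _ hg hh, ?_⟩
  rw [← Set.image_comp]
  congr 1
  funext e
  show g '' (h '' e) = (g * h) '' e
  rw [← Set.image_comp]
  rfl

theorem zpow_fix {S : Equiv.Perm H3} {v : H3} (h : S v = v) (k : ℤ) : (S ^ k) v = v := by
  have h' : S⁻¹ v = v := by
    rw [Equiv.Perm.inv_eq_iff_eq]; exact h.symm
  induction k using Int.induction_on with
  | zero => simp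
  | succ n ih => rw [zpow_add_one, Equiv.Perm.mul_apply, h, ih]
  | pred n ih => rw [zpow_sub_one, Equiv.Perm.mul_apply, h', ih]

theorem image_zpow_add (S : Equiv.Perm H3) (k j : ℤ) (e : Set H3) : (S ^ k) '' ((S ^ j) '' e) = (S ^ (k + j)) '' e := by
  rw [← Set.image_comp, zpow_add]
  rfl

theorem ncg0 : T_NCG := by
  intro K v v' S T p q hK hT
  have hVv : v ∈ K.V := by
    rw [hK.eqK]; exact ⟨1, Subgroup.one_mem _, rfl⟩
  have hVS : (S⁻¹ : Equiv.Perm H3) v' ∈ K.V := by
    rw [hK.eqK]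
    refine ⟨S⁻¹ * T, Subgroup.mul_mem _ (Subgroup.inv_mem _ (Subgroup.subset_closure (Or.inl rfl))) gr_T, ?_⟩
    rw [Equiv.Perm.mul_apply, hK.Tv]
  have hSi : (S⁻¹ : Equiv.Perm H3) v = v := by
    rw [Equiv.Perm.inv_eq_iff_eq]; exact hK.Sv.symm
  have hTi : (T⁻¹ : Equiv.Perm H3) v = v' := by
    rw [Equiv.Perm.inv_eq_iff_eq]; exact hK.Tv'.symm
  set R : Equiv.Perm H3 := T * S⁻¹ with hR
  have hRv : R v = v' := by rw [hR, Equiv.Perm.mul_apply, hSi, hK.Tv]
  have hRiv' : (R⁻¹ : Equiv.Perm H3) v' = v := by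
    rw [Equiv.Perm.inv_eq_iff_eq]; exact hRv.symm
  have hRiv : (R⁻¹ : Equiv.Perm H3) v = S v' := by
    rw [hR, mul_inv_rev, inv_inv, Equiv.Perm.mul_apply, hTi]
  have hf0 : f0 v v' S T ∈ K.F := hK.fl.2.2
  have he0 : ({v, v'} : Set H3) ∈ f0 v v' S T := hK.fl.2.1
  have hTf : (Set.image T) '' f0 v v' S T ∈ K.F := by
    rw [hK.eqK] at hf0 ⊢
    exact kst_F gr_T hf0
  have hTe : T '' ({v, v'} : Set H3) = {v, v'} := by
    rw [Set.image_pair, hK.Tv, hK.Tv', Set.pair_comm]
  have hTe0 : ({v, v'} : Set H3) ∈ (Set.image T) '' f0 v v' S T := ⟨_, he0, hTe⟩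
  constructor
  · rw [← hT.1 _ hf0]
    congr 1
    ext x
    constructor
    · rintro ⟨k, rfl⟩
      exact ⟨_, ⟨k, rfl⟩, v, Set.mem_insert _ _, rfl⟩
    · rintro ⟨e, ⟨k, rfl⟩, y, hy, rfl⟩
      rcases hy with rfl | hy
      · exact ⟨k, rfl⟩
      · rw [Set.mem_singleton_iff] at hy
        subst hy
        refine ⟨k + 1, ?_⟩
        rw [← hR, zpow_add_one, Equiv.Perm.mul_apply, hRv]
  · rw [← hT.2 v hVv]
    have hset : {e | e ∈ K.E ∧ v ∈ e} = (fun x : H3 => ({v, x} : Set H3)) '' {x | ∃ k : ℤ, x = (S ^ k) v'} := by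
      ext e
      constructor
      · rintro ⟨heE, hve⟩
        have hreach := hK.geo.cv v hVv {v, v'} ((hK.geo.fs _ hf0).1 he0) (Set.mem_insert _ _) e heE hve
        have key : ∃ k : ℤ, e = (S ^ k) '' {v, v'} := by
          clear heE hve
          induction hreach with
          | refl => exact ⟨0, by simp⟩
          | @tail a b _ hab ih =>
            obtain ⟨k, rfl⟩ := ih
            obtain ⟨hvb, f, hf, haf, hbf⟩ := hab
            set f' : Set (Set H3) := (Set.image ((S ^ (-k) : Equiv.Perm H3))) '' f with hf'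
            have hf'F : f' ∈ K.F := by
              rw [hK.eqK] at hf ⊢
              exact kst_F (gr_pow _) hf
            have h1 : ({v, v'} : Set H3) ∈ f' := by
              refine ⟨_, haf, ?_⟩
              rw [image_zpow_add]; simp
            have h2 : (S ^ (-k) : Equiv.Perm H3) '' b ∈ f' := ⟨_, hbf, rfl⟩
            have h3 : v ∈ (S ^ (-k) : Equiv.Perm H3) '' b := ⟨v, hvb, zpow_fix hK.Sv _⟩
            have hb' : ∃ j : ℤ, (S ^ (-k) : Equiv.Perm H3) '' b = (S ^ j) '' {v, v'} := by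
              rcases mem_of_two (hK.geo.ef _ ((hK.geo.fs _ hf0).1 he0)) (a := f0 v v' S T)
                (b := (Set.image T) '' f0 v v' S T) (c := f') ⟨hf0, he0⟩ ⟨hTf, hTe0⟩ ⟨hf'F, h1⟩ hK.fT.symm with h | h
              · rw [h] at h2
                have hm : (R ^ (-1 : ℤ) : Equiv.Perm H3) '' ({v, v'} : Set H3) = {v, S v'} := by
                  rw [Set.image_pair, zpow_neg_one, hRiv, hRiv', Set.pair_comm]
                have hm2 : ({v, S v'} : Set H3) ∈ f0 v v' S T := ⟨-1, hm.symm⟩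
                have hne : ({v, v'} : Set H3) ≠ {v, S v'} := by
                  intro e
                  have : v' ∈ ({v, S v'} : Set H3) := by
                    rw [← e]; exact Or.inr rfl
                  rcases this with h | h
                  · exact hK.ne h.symm
                  · exact hK.Sne (Set.mem_singleton_iff.mp h).symm
                rcases mem_of_two (hK.geo.vf _ hf0 _ he0 v (Set.mem_insert _ _)) (a := ({v, v'} : Set H3))
                  (b := {v, S v'}) (c := (S ^ (-k) : Equiv.Perm H3) '' b) ⟨he0, Set.mem_insert _ _⟩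
                  ⟨hm2, Set.mem_insert _ _⟩ ⟨h2, h3⟩ hne with h | h
                · exact ⟨0, by rw [h]; simp⟩
                · exact ⟨1, by rw [h, Set.image_pair, zpow_one, hK.Sv]⟩
              · rw [h] at h2
                have hTTS : T (R v') = (S⁻¹ : Equiv.Perm H3) v' := by
                  rw [hR, Equiv.Perm.mul_apply, hK.TT _ hVS]
                have hm : T '' ((R ^ (1 : ℤ) : Equiv.Perm H3) '' ({v, v'} : Set H3)) = {v, (S⁻¹ : Equiv.Perm H3) v'} := by
                  rw [Set.image_pair, zpow_one, hRv, Set.image_pair, hK.Tv', hTTS]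
                have hm2 : ({v, (S⁻¹ : Equiv.Perm H3) v'} : Set H3) ∈ (Set.image T) '' f0 v v' S T := ⟨_, ⟨1, rfl⟩, hm⟩
                have hne : ({v, v'} : Set H3) ≠ {v, (S⁻¹ : Equiv.Perm H3) v'} := by
                  intro e
                  have : v' ∈ ({v, (S⁻¹ : Equiv.Perm H3) v'} : Set H3) := by
                    rw [← e]; exact Or.inr rfl
                  rcases this with h | h
                  · exact hK.ne h.symm
                  · have := Set.mem_singleton_iff.mp h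
                    rw [eq_comm, Equiv.Perm.inv_eq_iff_eq] at this
                    exact hK.Sne this.symm
                rcases mem_of_two (hK.geo.vf _ hTf _ hTe0 v (Set.mem_insert _ _)) (a := ({v, v'} : Set H3))
                  (b := {v, (S⁻¹ : Equiv.Perm H3) v'}) (c := (S ^ (-k) : Equiv.Perm H3) '' b)
                  ⟨hTe0, Set.mem_insert _ _⟩ ⟨hm2, Set.mem_insert _ _⟩ ⟨h2, h3⟩ hne with h | h
                · exact ⟨0, by rw [h]; simp⟩
                · exact ⟨-1, by rw [h, Set.image_pair, zpow_neg_one, hSi]⟩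
            obtain ⟨j, hj⟩ := hb'
            refine ⟨k + j, ?_⟩
            rw [← image_zpow_add, ← hj, image_zpow_add]
            simp
        obtain ⟨k, rfl⟩ := key
        refine ⟨(S ^ k) v', ⟨k, rfl⟩, ?_⟩
        show ({v, (S ^ k) v'} : Set H3) = _
        rw [Set.image_pair, zpow_fix hK.Sv]
      · rintro ⟨x, ⟨k, rfl⟩, rfl⟩
        refine ⟨?_, Set.mem_insert _ _⟩
        show ({v, (S ^ k) v'} : Set H3) ∈ K.E
        have h1 : ({v, (S ^ k) v'} : Set H3) = (S ^ k) '' {v, v'} := by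
          rw [Set.image_pair, zpow_fix hK.Sv]
        rw [h1, hK.eqK]
        exact ⟨S ^ k, gr_pow k, rfl⟩
    rw [hset, Set.InjOn.encard_image]
    have hnv : ∀ k : ℤ, (S ^ k) v' ≠ v := by
      intro k e
      have h1 := zpow_fix hK.Sv k
      exact hK.ne ((S ^ k).injective (h1.trans e.symm))
    rintro x ⟨k, rfl⟩ y ⟨j, rfl⟩ hxy
    have hxy' : ({v, (S ^ k) v'} : Set H3) = {v, (S ^ j) v'} := hxy
    have : (S ^ k) v' ∈ ({v, (S ^ j) v'} : Set H3) := by
      rw [← hxy']; exact Or.inr rfl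
    rcases this with h | h
    · exact absurd h (hnv k)
    · exact Set.mem_singleton_iff.mp h

theorem ncg (_h : T_SYG) : T_NCG := ncg0

end Pool.Agent.H16.CPX
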