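import Mathlib
import Pool.Agent.H57.CP.Targets

/-!
# Chiral polyhedra in hyperbolic 3-space: module TRP, conjugation
-/

namespace Pool.Agent.H16.CPX

open Pool.Agent.H57.CP

theorem conj_mem {S T C g : Equiv.Perm H3} (hg : g ∈ Gr S T) : C * g * C⁻¹ ∈ Gr (C * S * C⁻¹) (C * T * C⁻¹) := by
  unfold Gr at *
  induction hg using Subgroup.closure_induction with
  | mem x hx =>
    rcases hx with rfl | hx
    · exact Subgroup.subset_closure (Or.inl rfl)
    · rw [Set.mem_singleton_iff] at hx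
      subst hx
      exact Subgroup.subset_closure (Or.inr rfl)
  | one => simpa using Subgroup.one_mem _
  | mul x y _ _ hx hy =>
    have : C * (x * y) * C⁻¹ = (C * x * C⁻¹) * (C * y * C⁻¹) := by group
    rw [this]
    exact Subgroup.mul_mem _ hx hy
  | inv x _ hx =>
    have : C * x⁻¹ * C⁻¹ = (C * x * C⁻¹)⁻¹ := by group
    rw [this]
    exact Subgroup.inv_mem _ hx

theorem conj_mem' {S T C g : Equiv.Perm H3} (hg : g ∈ Gr (C * S * C⁻¹) (C * T * C⁻¹)) : C⁻¹ * g * C ∈ Gr S T := by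
  have h := conj_mem (C := C⁻¹) hg
  have h1 : C⁻¹ * (C * S * C⁻¹) * C⁻¹⁻¹ = S := by group
  have h2 : C⁻¹ * (C * T * C⁻¹) * C⁻¹⁻¹ = T := by group
  rw [h1, h2] at h
  simpa using h

theorem orb_conj {v : H3} {S T C : Equiv.Perm H3} {x : H3} (hx : x ∈ Orb (C v) (C * S * C⁻¹) (C * T * C⁻¹)) :
    ∃ y ∈ Orb v S T, x = C y := by
  obtain ⟨g, hg, rfl⟩ := hx
  refine ⟨(C⁻¹ * g * C) v, ⟨_, conj_mem' hg, rfl⟩, ?_⟩
  simp [Equiv.Perm.mul_apply]

theorem orb_conj' {v : H3} {S T C : Equiv.Perm H3} {y : H3} (hy : y ∈ Orb v S T) :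
    C y ∈ Orb (C v) (C * S * C⁻¹) (C * T * C⁻¹) := by
  obtain ⟨g, hg, rfl⟩ := hy
  exact ⟨C * g * C⁻¹, conj_mem hg, by simp [Equiv.Perm.mul_apply]⟩

theorem isIso_mul {g h : Equiv.Perm H3} (hg : IsIso g) (hh : IsIso h) : IsIso (g * h) := by
  intro x y
  rw [Equiv.Perm.mul_apply, Equiv.Perm.mul_apply, hg, hh]

theorem isIso_inv {g : Equiv.Perm H3} (hg : IsIso g) : IsIso g⁻¹ := by
  intro x y
  rw [← hg (g⁻¹ x) (g⁻¹ y)]
  simp

theorem conj_pow' (C g : Equiv.Perm H3) (m : ℕ) : (C * g * C⁻¹) ^ m = C * g ^ m * C⁻¹ := by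
  induction m with
  | zero => simp
  | succ m ih => rw [pow_succ, ih, pow_succ]; group

theorem conj_apply (C g : Equiv.Perm H3) (x : H3) : (C * g * C⁻¹) (C x) = C (g x) := by
  simp [Equiv.Perm.mul_apply]

theorem trp : T_TRP := by
  intro v v' S T C hC h
  have hTS : C * T * C⁻¹ * (C * S * C⁻¹)⁻¹ = C * (T * S⁻¹) * C⁻¹ := by group
  refine ⟨isIso_mul (isIso_mul hC h.iS) (isIso_inv hC), isIso_mul (isIso_mul hC h.iT) (isIso_inv hC), ?_, ?_, ?_, ?_,
    ?_, ?_, ?_, ?_, ?_, ?_⟩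
  · rw [conj_apply, h.Sv]
  · rw [conj_apply, h.Tv]
  · rw [conj_apply, h.Tv']
  · exact fun e => h.ne (C.injective e)
  · intro x hx
    obtain ⟨y, hy, rfl⟩ := orb_conj hx
    rw [conj_apply, conj_apply, h.TT y hy]
  · intro e
    rw [conj_apply, conj_apply] at e
    exact h.S2 (C.injective e)
  · intro m e x hx
    obtain ⟨y, hy, rfl⟩ := orb_conj hx
    rw [conj_pow', conj_apply] at e ⊢
    rw [h.Sm m (C.injective e) y hy]
  · intro m e x hx
    obtain ⟨y, hy, rfl⟩ := orb_conj hx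
    rw [hTS, conj_pow', conj_apply] at e ⊢
    rw [h.Pm m (C.injective e) y hy]
  · obtain ⟨ε, hε, hd⟩ := h.dis
    refine ⟨ε, hε, fun x hx hxv => ?_⟩
    obtain ⟨y, hy, rfl⟩ := orb_conj hx
    rw [hC]
    exact hd y hy (fun e => hxv (by rw [e]))
  · rintro ⟨R, hR, hRv, hRv', hR2⟩
    refine h.noR ⟨C⁻¹ * R * C, isIso_mul (isIso_mul (isIso_inv hC) hR) hC, ?_, ?_, fun x hx => ?_⟩
    · simp [Equiv.Perm.mul_apply, hRv]
    · simp [Equiv.Perm.mul_apply, hRv']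
    · obtain ⟨h1, h2⟩ := hR2 (C x) (orb_conj' hx)
      rw [conj_apply] at h1 h2
      constructor
      · show C⁻¹ (R (C (S x))) = S⁻¹ (C⁻¹ (R (C x)))
        rw [h1]
        simp [mul_inv_rev, Equiv.Perm.mul_apply]
      · show C⁻¹ (R (C (T x))) = T (C⁻¹ (R (C x)))
        rw [h2]
        simp [Equiv.Perm.mul_apply]

end Pool.Agent.H16.CPX
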